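import Pool.Agent.Helper99.SI.StA

set_option autoImplicit false

/-!
# Project SI, module A0: facts about gradings
-/

namespace Pool.Agent.Helper4.SI

open Pool.Agent.Helper99.SI

section

variable {L : Type} [Ring L] [Algebra ℂ L] [StarRing L] (B : ZGr L)

lemma sum_eq (y : L) (s : Finset ℤ) (hs : ∀ j, B.p j y ≠ 0 → j ∈ s) :
    ∑ j ∈ s, B.p j y = y := by
  have h := B.sum y
  rw [finsum_eq_sum_of_support_subset _ (s := s) (fun j hj => hs j hj)] at h
  exact h

lemma ext_p {y z : L} (h : ∀ j, B.p j y = B.p j z) : y = z := by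
  rw [← B.sum y, ← B.sum z]
  exact finsum_congr h

lemma mem_fin (y : L) (j : ℤ) (h : B.p j y ≠ 0) : j ∈ (B.fin y).toFinset := by
  simpa using h

lemma comb_eq (c : ℤ → ℂ) (y : L) (s : Finset ℤ) (hs : ∀ j, B.p j y ≠ 0 → j ∈ s) :
    B.comb c y = ∑ j ∈ s, c j • B.p j y := by
  change ∑ᶠ j : ℤ, c j • B.p j y = _
  refine finsum_eq_sum_of_support_subset _ (fun j hj => hs j ?_)
  intro h0
  apply hj
  change c j • B.p j y = 0
  rw [h0, smul_zero]

lemma p_comb (c : ℤ → ℂ) (j : ℤ) (y : L) : B.p j (B.comb c y) = c j • B.p j y := by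
  rw [comb_eq B c y _ (mem_fin B y), map_sum]
  have h1 : ∀ i ∈ (B.fin y).toFinset, B.p j (c i • B.p i y) =
      if i = j then c j • B.p j y else 0 := by
    intro i _
    rw [map_smul, B.pp]
    by_cases h : i = j
    · subst h; simp
    · rw [if_neg h, if_neg (fun h' => h h'.symm), smul_zero]
  rw [Finset.sum_congr rfl h1, Finset.sum_ite_eq']
  split_ifs with h
  · rfl
  · have h0 : B.p j y = 0 := by
      by_contra h2
      exact h (mem_fin B y j h2)
    rw [h0, smul_zero]

lemma p_mul (k : ℤ) (y z : L) (s : Finset ℤ) (hs : ∀ j, B.p j y ≠ 0 → j ∈ s) :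
    B.p k (y * z) = ∑ i ∈ s, B.p i y * B.p (k - i) z := by
  conv_lhs => rw [← sum_eq B y s hs]
  rw [Finset.sum_mul, map_sum]
  refine Finset.sum_congr rfl fun i _ => ?_
  conv_lhs => rw [← sum_eq B z _ (mem_fin B z)]
  rw [Finset.mul_sum, map_sum]
  have h1 : ∀ j ∈ (B.fin z).toFinset, B.p k (B.p i y * B.p j z) =
      if j = k - i then B.p i y * B.p (k - i) z else 0 := by
    intro j _
    rw [← B.mul i j y z, B.pp]
    by_cases h : j = k - i
    · subst h
      rw [if_pos (by ring), if_pos rfl, B.mul]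
    · rw [if_neg h, if_neg (fun h' => h (by omega))]
  rw [Finset.sum_congr rfl h1, Finset.sum_ite_eq']
  split_ifs with h
  · rfl
  · have h0 : B.p (k - i) z = 0 := by
      by_contra h2
      exact h (mem_fin B z _ h2)
    rw [h0, mul_zero]

lemma p_star (j : ℤ) (y : L) : B.p j (star y) = star (B.p (-j) y) := by
  have h := B.st (-j) y
  rwa [neg_neg] at h

lemma p_one_ne (j : ℤ) (h : j ≠ 0) : B.p j (1 : L) = 0 := by
  have h1 := B.pp j 0 (1 : L)
  rw [B.one, if_neg h] at h1
  exact h1

lemma p_ev (t : ℂ) (j : ℤ) (y : L) : B.p j (B.ev t y) = t ^ j • B.p j y :=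
  p_comb B _ j y

lemma p_dd (j : ℤ) (y : L) : B.p j (B.dd y) = (j : ℂ) • B.p j y :=
  p_comb B _ j y

end

theorem hA0 : StA0 := by
  intro L _ _ _ _ B
  refine ⟨?_, ?_, ?_, ?_, ?_, ?_, ?_, ?_, ?_, ?_⟩
  · intro k y z
    rw [p_mul B k y z _ (mem_fin B y)]
    symm
    refine finsum_eq_sum_of_support_subset _ (fun i hi => mem_fin B y i ?_)
    intro h0
    apply hi
    change B.p i y * B.p (k - i) z = 0
    rw [h0, zero_mul]
  · intro t y z ht
    apply ext_p B
    intro k
    have hs : ∀ j, B.p j (B.ev t y) ≠ 0 → j ∈ (B.fin y).toFinset := by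
      intro j hj
      refine mem_fin B y j fun h0 => hj ?_
      rw [p_ev, h0, smul_zero]
    rw [p_ev, p_mul B k y z _ (mem_fin B y), p_mul B k _ _ _ hs, Finset.smul_sum]
    refine Finset.sum_congr rfl fun i _ => ?_
    rw [p_ev, p_ev, smul_mul_smul_comm, ← zpow_add₀ ht]
    congr 2
    ring
  · intro t
    apply ext_p B
    intro k
    rw [p_ev]
    by_cases hk : k = 0
    · subst hk
      rw [zpow_zero, one_smul]
    · rw [p_one_ne B k hk, smul_zero]
  · intro s t y _ _
    apply ext_p B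
    intro k
    rw [p_ev, p_ev, p_ev, smul_smul, mul_zpow]
  · intro y
    apply ext_p B
    intro k
    rw [p_ev, one_zpow, one_smul]
  · intro t y _
    apply ext_p B
    intro k
    rw [p_star, p_ev, p_ev, p_star, star_smul, star_zpow₀]
    congr 1
    rw [zpow_neg, inv_zpow]
  · intro t j y
    exact p_ev B t j y
  · intro y z
    apply ext_p B
    intro k
    have hs : ∀ j, B.p j (B.dd y) ≠ 0 → j ∈ (B.fin y).toFinset := by
      intro j hj
      refine mem_fin B y j fun h0 => hj ?_
      rw [p_dd, h0, smul_zero]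
    rw [p_dd, p_mul B k y z _ (mem_fin B y), map_add, p_mul B k (B.dd y) z _ hs,
      p_mul B k y (B.dd z) _ (mem_fin B y), Finset.smul_sum, ← Finset.sum_add_distrib]
    refine Finset.sum_congr rfl fun i _ => ?_
    rw [p_dd, p_dd, smul_mul_assoc, mul_smul_comm, ← add_smul]
    congr 1
    push_cast
    ring
  · intro j y
    exact p_dd B j y
  · intro y
    apply ext_p B
    intro k
    rw [p_star, p_dd, map_neg, p_dd, p_star, star_smul]
    rw [← neg_smul]
    congr 1
    push_cast
    simp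

end Pool.Agent.Helper4.SI
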