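import Pool.Agent.Helper99.SI.StB
import Pool.Agent.Helper4.SI.M_A0

set_option autoImplicit false

/-!
# Project SI, module B4: the equation for the components
-/

namespace Pool.Agent.Helper4.SI

open Pool.Agent.Helper99.SI

section act

variable {L : Type} [Ring L] [Algebra ℂ L] [StarRing L] (B : ZGr L)

/-- left action of the components of `u` on functions -/
noncomputable def lact (u : L) (Y : ℤ → L) (j : ℤ) : L := ∑ᶠ a : ℤ, B.p a u * Y (j - a)

/-- right action of the components of `v` on functions -/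
noncomputable def ract (v : L) (Y : ℤ → L) (j : ℤ) : L := ∑ᶠ l : ℤ, Y (j - l) * B.p l v

lemma lact_eq (u : L) (Y : ℤ → L) (j : ℤ) (s : Finset ℤ) (hs : ∀ a, B.p a u ≠ 0 → a ∈ s) :
    lact B u Y j = ∑ a ∈ s, B.p a u * Y (j - a) := by
  refine finsum_eq_sum_of_support_subset _ fun a ha => hs a fun h0 => ha ?_
  change B.p a u * Y (j - a) = 0
  rw [h0, zero_mul]

lemma ract_eq (v : L) (Y : ℤ → L) (j : ℤ) (s : Finset ℤ) (hs : ∀ a, B.p a v ≠ 0 → a ∈ s) :
    ract B v Y j = ∑ l ∈ s, Y (j - l) * B.p l v := by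
  refine finsum_eq_sum_of_support_subset _ fun a ha => hs a fun h0 => ha ?_
  change Y (j - a) * B.p a v = 0
  rw [h0, mul_zero]

lemma lact_hat (u y : L) (j : ℤ) : lact B u (fun i => B.p i y) j = B.p j (u * y) := by
  rw [lact_eq B u _ j _ (mem_fin B u), p_mul B j u y _ (mem_fin B u)]

lemma p_mul' (k : ℤ) (y z : L) (s : Finset ℤ) (hs : ∀ j, B.p j z ≠ 0 → j ∈ s) :
    B.p k (y * z) = ∑ i ∈ s, B.p (k - i) y * B.p i z := by
  rw [p_mul B k y z _ (mem_fin B y)]
  have h1 : ∑ i ∈ (B.fin y).toFinset, B.p i y * B.p (k - i) z =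
      ∑ᶠ i : ℤ, B.p i y * B.p (k - i) z := by
    symm
    refine finsum_eq_sum_of_support_subset _ fun i hi => mem_fin B y i fun h0 => hi ?_
    change B.p i y * B.p (k - i) z = 0
    rw [h0, zero_mul]
  rw [h1, ← finsum_comp_equiv (Equiv.subLeft k)]
  have h2 : ∀ i : ℤ, B.p (Equiv.subLeft k i) y * B.p (k - Equiv.subLeft k i) z =
      B.p (k - i) y * B.p i z := by
    intro i
    simp [Equiv.subLeft]
  rw [finsum_congr h2]
  refine finsum_eq_sum_of_support_subset _ fun i hi => hs i fun h0 => hi ?_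
  change B.p (k - i) y * B.p i z = 0
  rw [h0, mul_zero]

lemma ract_hat (v y : L) (j : ℤ) : ract B v (fun i => B.p i y) j = B.p j (y * v) := by
  rw [ract_eq B v _ j _ (mem_fin B v), p_mul' B j y v _ (mem_fin B v)]

lemma lact_mul (u u' : L) (Y : ℤ → L) (j : ℤ) :
    lact B (u * u') Y j = lact B u (lact B u' Y) j := by
  rw [lact_eq B u _ j _ (mem_fin B u)]
  unfold lact
  have h1 : ∀ c : ℤ, B.p c (u * u') * Y (j - c) =
      ∑ a ∈ (B.fin u).toFinset, B.p a u * (B.p (c - a) u' * Y (j - c)) := by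
    intro c
    rw [p_mul B c u u' _ (mem_fin B u), Finset.sum_mul]
    exact Finset.sum_congr rfl fun a _ => by rw [mul_assoc]
  have hfin : ∀ a : ℤ, (Function.support fun c : ℤ => B.p (c - a) u' * Y (j - c)).Finite := by
    intro a
    refine ((B.fin u').preimage (sub_left_injective (b := a)).injOn).subset ?_
    intro c hc h0
    apply hc
    change B.p (c - a) u' * Y (j - c) = 0
    change B.p (c - a) u' = 0 at h0
    rw [h0, zero_mul]
  rw [finsum_congr h1, finsum_sum_comm]
  · refine Finset.sum_congr rfl fun a _ => ?_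
    rw [← mul_finsum' _ _ (hfin a)]
    congr 1
    rw [← finsum_comp_equiv (Equiv.addRight a)]
    refine finsum_congr fun c => ?_
    have e1 : (Equiv.addRight a) c = c + a := rfl
    rw [e1, add_sub_cancel_right]
    congr 2
    ring
  · intro a _
    refine (hfin a).subset ?_
    intro c hc h0
    apply hc
    change B.p (c - a) u' * Y (j - c) = 0 at h0
    change B.p a u * (B.p (c - a) u' * Y (j - c)) = 0
    rw [h0, mul_zero]

lemma ract_mul (v' v : L) (Y : ℤ → L) (j : ℤ) :
    ract B (v' * v) Y j = ract B v (ract B v' Y) j := by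
  rw [ract_eq B v _ j _ (mem_fin B v)]
  unfold ract
  have h1 : ∀ c : ℤ, Y (j - c) * B.p c (v' * v) =
      ∑ l ∈ (B.fin v).toFinset, (Y (j - c) * B.p (c - l) v') * B.p l v := by
    intro c
    rw [p_mul' B c v' v _ (mem_fin B v), Finset.mul_sum]
    exact Finset.sum_congr rfl fun a _ => by rw [mul_assoc]
  have hfin : ∀ a : ℤ, (Function.support fun c : ℤ => Y (j - c) * B.p (c - a) v').Finite := by
    intro a
    refine ((B.fin v').preimage (sub_left_injective (b := a)).injOn).subset ?_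
    intro c hc h0
    apply hc
    change Y (j - c) * B.p (c - a) v' = 0
    change B.p (c - a) v' = 0 at h0
    rw [h0, mul_zero]
  rw [finsum_congr h1, finsum_sum_comm]
  · refine Finset.sum_congr rfl fun a _ => ?_
    rw [← finsum_mul' _ _ (hfin a)]
    congr 1
    rw [← finsum_comp_equiv (Equiv.addRight a)]
    refine finsum_congr fun c => ?_
    have e1 : (Equiv.addRight a) c = c + a := rfl
    rw [e1, add_sub_cancel_right]
    congr 2
    ring
  · intro a _
    refine (hfin a).subset ?_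
    intro c hc h0
    apply hc
    change Y (j - c) * B.p (c - a) v' = 0 at h0
    change Y (j - c) * B.p (c - a) v' * B.p a v = 0
    rw [h0, zero_mul]

lemma lr_comm (u v : L) (Y : ℤ → L) (j : ℤ) :
    ract B v (lact B u Y) j = lact B u (ract B v Y) j := by
  rw [ract_eq B v _ j _ (mem_fin B v), lact_eq B u _ j _ (mem_fin B u)]
  have h1 : ∀ l ∈ (B.fin v).toFinset, lact B u Y (j - l) * B.p l v =
      ∑ a ∈ (B.fin u).toFinset, B.p a u * Y (j - l - a) * B.p l v := by
    intro l _
    rw [lact_eq B u _ _ _ (mem_fin B u), Finset.sum_mul]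
  have h2 : ∀ a ∈ (B.fin u).toFinset, B.p a u * ract B v Y (j - a) =
      ∑ l ∈ (B.fin v).toFinset, B.p a u * Y (j - l - a) * B.p l v := by
    intro a _
    rw [ract_eq B v _ _ _ (mem_fin B v), Finset.mul_sum]
    refine Finset.sum_congr rfl fun l _ => ?_
    rw [mul_assoc]
    congr 3
    ring
  rw [Finset.sum_congr rfl h1, Finset.sum_congr rfl h2, Finset.sum_comm]

/-- the two-sided action -/
noncomputable def sact (u v : L) (Y : ℤ → L) (j : ℤ) : L := lact B u (ract B v Y) j

lemma sact_eq (u v : L) (Y : ℤ → L) (j : ℤ) (s s' : Finset ℤ) (hs : ∀ a, B.p a u ≠ 0 → a ∈ s)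
    (hs' : ∀ a, B.p a v ≠ 0 → a ∈ s') :
    sact B u v Y j = ∑ a ∈ s, ∑ l ∈ s', B.p a u * Y (j - a - l) * B.p l v := by
  unfold sact
  rw [lact_eq B u _ j s hs]
  refine Finset.sum_congr rfl fun a _ => ?_
  rw [ract_eq B v _ _ s' hs', Finset.mul_sum]
  exact Finset.sum_congr rfl fun l _ => by rw [mul_assoc]

lemma sact_mul (u u' v' v : L) (Y : ℤ → L) (j : ℤ) :
    sact B (u * u') (v' * v) Y j = sact B u v (sact B u' v' Y) j := by
  unfold sact
  rw [lact_mul]
  congr 1
  funext i
  have h1 : (ract B (v' * v) Y) = ract B v (ract B v' Y) := funext fun k => ract_mul B v' v Y k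
  rw [h1]
  have h2 : (fun k => lact B u' (ract B v' Y) k) = lact B u' (ract B v' Y) := rfl
  rw [← lr_comm B u' v (ract B v' Y) i]

lemma sact_sum {ι : Type} (T : Finset ι) (u v : L) (f : ι → ℤ → L) (c : ι → ℂ) (j : ℤ) :
    sact B u v (fun i => ∑ x ∈ T, c x • f x i) j = ∑ x ∈ T, c x • sact B u v (f x) j := by
  rw [sact_eq B u v _ j _ _ (mem_fin B u) (mem_fin B v)]
  have h1 : ∀ x ∈ T, c x • sact B u v (f x) j =
      ∑ a ∈ (B.fin u).toFinset, ∑ l ∈ (B.fin v).toFinset,
        c x • (B.p a u * f x (j - a - l) * B.p l v) := by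
    intro x _
    rw [sact_eq B u v _ j _ _ (mem_fin B u) (mem_fin B v), Finset.smul_sum]
    exact Finset.sum_congr rfl fun a _ => by rw [Finset.smul_sum]
  rw [Finset.sum_congr rfl h1]
  symm
  rw [Finset.sum_comm]
  refine Finset.sum_congr rfl fun a _ => ?_
  rw [Finset.sum_comm]
  refine Finset.sum_congr rfl fun l _ => ?_
  rw [Finset.mul_sum, Finset.sum_mul]
  refine Finset.sum_congr rfl fun x _ => ?_
  rw [mul_smul_comm, smul_mul_assoc]

lemma sact_smul (u v : L) (f : ℤ → L) (c : ℂ) (j : ℤ) :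
    sact B u v (fun i => c • f i) j = c • sact B u v f j := by
  have h := sact_sum B (Finset.univ : Finset Unit) u v (fun _ => f) (fun _ => c) j
  simpa using h

lemma sact_hat (u v y : L) (j : ℤ) :
    sact B u v (fun i => B.p i y) j = B.p j (u * y * v) := by
  unfold sact
  have h1 : ract B v (fun i => B.p i y) = fun i => B.p i (y * v) :=
    funext fun i => ract_hat B v y i
  rw [h1, lact_hat, mul_assoc]

lemma sact_one (Y : ℤ → L) (j : ℤ) : sact B 1 1 Y j = Y j := by
  have hs : ∀ a : ℤ, B.p a (1 : L) ≠ 0 → a ∈ ({0} : Finset ℤ) := by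
    intro a ha
    by_contra h
    exact ha (p_one_ne B a (by simpa using h))
  rw [sact_eq B 1 1 Y j {0} {0} hs hs]
  simp [B.one]

/-- the double sum of the statement -/
lemma sact_finsum (t : ℂ) (u v : L) (Y : ℤ → L) (j : ℤ) :
    sact B u (B.ev t v) Y j =
      ∑ᶠ a : ℤ, ∑ᶠ l : ℤ, t ^ l • (B.p a u * Y (j - a - l) * B.p l v) := by
  unfold sact lact
  refine finsum_congr fun a => ?_
  unfold ract
  have hf : (Function.support fun l : ℤ => Y (j - a - l) * B.p l (B.ev t v)).Finite := by
    refine (B.fin v).subset ?_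
    intro l hl h0
    apply hl
    change Y (j - a - l) * B.p l (B.ev t v) = 0
    rw [p_ev, h0, smul_zero, mul_zero]
  rw [mul_finsum' _ _ hf]
  refine finsum_congr fun l => ?_
  rw [p_ev, mul_smul_comm, mul_smul_comm, mul_assoc]

end act

section model

variable {n : ℕ} {L : Type} [Ring L] [Algebra ℂ L] [StarRing L]

lemma fin_len (n r K : ℕ) : {i : Idx n r | ilen i ≤ K}.Finite := by
  have h1 : {l : W n | l.length ≤ K}.Finite := List.finite_length_le (Fin n) K
  have h2 : {i : Idx n r | ilen i ≤ K} ⊆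
      ((fun l : W n => (Sum.inl (Sum.inl l) : Idx n r)) '' {l : W n | l.length ≤ K} ∪
      (fun l : W n => (Sum.inl (Sum.inr l) : Idx n r)) '' {l : W n | l.length ≤ K}) ∪
      Set.range (fun a : Fin r => (Sum.inr a : Idx n r)) := by
    rintro ((ν | ν) | a) h
    · exact Or.inl (Or.inl ⟨ν, h, rfl⟩)
    · exact Or.inl (Or.inr ⟨ν, h, rfl⟩)
    · exact Or.inr ⟨a, rfl⟩
  exact (((h1.image _).union (h1.image _)).union (Set.finite_range _)).subset h2

lemma ker_step (D : Sys n L) (X0 : Set L) (m : MData n L) (hm : IsModel D X0 m)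
    (s t : ℝ) (ht : 0 < t)
    (hfin : ∀ j : ℤ, {i : Idx n m.r | D.b.p j (m.piT D t i) ≠ 0}.Finite)
    (z : Idx n m.r → ℂ) (hz : m.IsKer s t z) (j : ℤ) :
    ∃ I : Finset (Idx n m.r), ∀ T : Finset (Idx n m.r), I ⊆ T →
      m.Yj D t z j = (s : ℂ) • ∑ i ∈ T, z i • D.b.p j (D.Phi t (m.piT D t i)) := by
  classical
  obtain ⟨c, hc⟩ := hm.band
  set Ij : Finset (Idx n m.r) := (hfin j).toFinset with hIj
  have hmem : ∀ i, D.b.p j (m.piT D t i) ≠ 0 → i ∈ Ij := by
    intro i hi
    rw [hIj, Set.Finite.mem_toFinset]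
    exact hi
  have hrow : ∀ i' i, m.Fc t i' i ≠ 0 → ilen i' ≤ ilen i + c := by
    intro i' i h
    have h1 : ∃ jj, m.F jj i' i ≠ 0 := by
      by_contra h2
      push Not at h2
      apply h
      unfold MData.Fc
      rw [Finsupp.finsetSum_apply]
      refine Finset.sum_eq_zero fun jj _ => ?_
      rw [Finsupp.smul_apply, h2 jj, smul_zero]
    obtain ⟨jj, hjj⟩ := h1
    exact (hc jj i' i hjj).2
  set K : ℕ := Ij.sup ilen with hK
  refine ⟨(fin_len n m.r (K + c)).toFinset, fun T hT => ?_⟩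
  have hIT : ∀ i ∈ Ij, ∀ i', m.Fc t i' i ≠ 0 → i' ∈ T := by
    intro i hi i' h
    apply hT
    rw [Set.Finite.mem_toFinset]
    have h1 := hrow i' i h
    have h2 : ilen i ≤ K := Finset.le_sup hi
    exact h1.trans (Nat.add_le_add_right h2 c)
  have hz' : ∀ i ∈ Ij, z i = (s : ℂ) * ∑ i' ∈ T, m.Fc t i' i * z i' := by
    intro i hi
    rw [hz i]
    congr 1
    refine finsum_eq_sum_of_support_subset _ fun i' hi' => hIT i hi i' fun h0 => hi' ?_
    change m.Fc t i' i * z i' = 0
    rw [h0, zero_mul]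
  have hY : m.Yj D t z j = ∑ i ∈ Ij, z i • D.b.p j (m.piT D t i) := by
    unfold MData.Yj
    refine finsum_eq_sum_of_support_subset _ fun i hi => hmem i fun h0 => hi ?_
    change z i • D.b.p j (m.piT D t i) = 0
    rw [h0, smul_zero]
  have hP : ∀ i', D.b.p j (D.Phi t (m.piT D t i')) =
      ∑ i ∈ Ij, m.Fc t i' i • D.b.p j (m.piT D t i) := by
    intro i'
    have h1 := hm.fpi t ht (Finsupp.single i' 1)
    unfold MData.piV MData.Fl at h1
    rw [Finsupp.linearCombination_single, Finsupp.linearCombination_single, one_smul,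
      one_smul] at h1
    rw [← h1, Finsupp.linearCombination_apply, Finsupp.sum, map_sum]
    simp only [map_smul]
    have e1 : ∑ x ∈ (m.Fc t i').support, m.Fc t i' x • D.b.p j (m.piT D t x) =
        ∑ᶠ x, m.Fc t i' x • D.b.p j (m.piT D t x) := by
      symm
      refine finsum_eq_sum_of_support_subset _ fun x hx => ?_
      rw [Finset.mem_coe, Finsupp.mem_support_iff]
      intro h0
      apply hx
      change m.Fc t i' x • D.b.p j (m.piT D t x) = 0
      rw [h0, zero_smul]
    rw [e1]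
    refine finsum_eq_sum_of_support_subset _ fun x hx => hmem x fun h0 => hx ?_
    change m.Fc t i' x • D.b.p j (m.piT D t x) = 0
    rw [h0, smul_zero]
  rw [hY, Finset.sum_congr rfl fun i hi => by rw [hz' i hi], Finset.smul_sum]
  simp only [hP]
  have e2 : ∀ i ∈ Ij, ((s : ℂ) * ∑ i' ∈ T, m.Fc t i' i * z i') • D.b.p j (m.piT D t i) =
      ∑ i' ∈ T, (s : ℂ) • (z i' • (m.Fc t i' i • D.b.p j (m.piT D t i))) := by
    intro i _
    rw [Finset.mul_sum, Finset.sum_smul]
    refine Finset.sum_congr rfl fun i' _ => ?_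
    rw [smul_smul, smul_smul]
    congr 1
    ring
  rw [Finset.sum_congr rfl e2, Finset.sum_comm]
  refine Finset.sum_congr rfl fun i' _ => ?_
  rw [Finset.smul_sum, Finset.smul_sum]

lemma one_step (D : Sys n L) (X0 : Set L) (m : MData n L) (hm : IsModel D X0 m)
    (s t : ℝ) (ht : 0 < t)
    (hfin : ∀ j : ℤ, {i : Idx n m.r | D.b.p j (m.piT D t i) ≠ 0}.Finite)
    (z : Idx n m.r → ℂ) (hz : m.IsKer s t z) (j : ℤ) :
    m.Yj D t z j = (s : ℂ) • ∑ x : Fin n,
      sact D.b (star (D.x x)) (D.b.ev t (D.x x)) (m.Yj D t z) j := by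
  classical
  obtain ⟨I, hI⟩ := ker_step D X0 m hm s t ht hfin z hz j
  set SA : Finset ℤ := Finset.univ.biUnion fun x : Fin n => (D.b.fin (star (D.x x))).toFinset
    with hSA
  set SB : Finset ℤ := Finset.univ.biUnion fun x : Fin n => (D.b.fin (D.b.ev t (D.x x))).toFinset
    with hSB
  have hA : ∀ x a, D.b.p a (star (D.x x)) ≠ 0 → a ∈ SA := fun x a h =>
    Finset.mem_biUnion.mpr ⟨x, Finset.mem_univ x, mem_fin D.b _ a h⟩
  have hB : ∀ x a, D.b.p a (D.b.ev t (D.x x)) ≠ 0 → a ∈ SB := fun x a h =>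
    Finset.mem_biUnion.mpr ⟨x, Finset.mem_univ x, mem_fin D.b _ a h⟩
  set T : Finset (Idx n m.r) := I ∪ SA.biUnion fun a => SB.biUnion fun l =>
    (hfin (j - a - l)).toFinset with hT
  have hYT : ∀ a ∈ SA, ∀ l ∈ SB, m.Yj D t z (j - a - l) =
      ∑ i ∈ T, z i • D.b.p (j - a - l) (m.piT D t i) := by
    intro a ha l hl
    unfold MData.Yj
    refine finsum_eq_sum_of_support_subset _ fun i hi => ?_
    have h1 : D.b.p (j - a - l) (m.piT D t i) ≠ 0 := by
      intro h0
      apply hi
      change z i • D.b.p (j - a - l) (m.piT D t i) = 0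
      rw [h0, smul_zero]
    rw [Finset.mem_coe, hT, Finset.mem_union]
    right
    rw [Finset.mem_biUnion]
    refine ⟨a, ha, Finset.mem_biUnion.mpr ⟨l, hl, ?_⟩⟩
    rw [Set.Finite.mem_toFinset]
    exact h1
  rw [hI T Finset.subset_union_left]
  congr 1
  have e1 : ∀ i, D.b.p j (D.Phi t (m.piT D t i)) = ∑ x : Fin n,
      sact D.b (star (D.x x)) (D.b.ev t (D.x x)) (fun k => D.b.p k (m.piT D t i)) j := by
    intro i
    unfold Sys.Phi
    rw [LinearMap.sum_apply, map_sum]
    refine Finset.sum_congr rfl fun x _ => ?_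
    rw [sact_hat]
    simp only [LinearMap.comp_apply, LinearMap.mulLeft_apply, LinearMap.mulRight_apply]
    rw [mul_assoc]
  have e2 : ∀ x : Fin n, sact D.b (star (D.x x)) (D.b.ev t (D.x x)) (m.Yj D t z) j =
      ∑ i ∈ T, z i • sact D.b (star (D.x x)) (D.b.ev t (D.x x))
        (fun k => D.b.p k (m.piT D t i)) j := by
    intro x
    rw [← sact_sum, sact_eq D.b _ _ _ j SA SB (hA x) (hB x),
      sact_eq D.b _ _ _ j SA SB (hA x) (hB x)]
    refine Finset.sum_congr rfl fun a ha => Finset.sum_congr rfl fun l hl => ?_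
    rw [hYT a ha l hl]
  simp only [e2, e1, Finset.smul_sum]
  rw [Finset.sum_comm]

lemma wd_cons (D : Sys n L) (x : Fin n) (l : W n) : D.w (x :: l) = D.x x * D.w l := by
  simp [Sys.w, wd]

end model

theorem hB4 (h1 : StA0) (_h2 : StA1) (h3 : StA7) (_h4 : StB3) : StB4 := by
  intro n L _ _ _ _ _ D X0 m hm s t ht z hz
  have htc : (t : ℂ) ≠ 0 := by
    exact_mod_cast ht.ne'
  obtain ⟨-, hmul, hone, -⟩ := h1 L D.b
  obtain ⟨n1, C, -, -, hlen⟩ := h3 n L D
  have hfin : ∀ j : ℤ, {i : Idx n m.r | D.b.p j (m.piT D t i) ≠ 0}.Finite := by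
    intro j
    refine (fin_len n m.r (max (n1 * j + C).toNat (n1 * (-j) + C).toNat)).subset ?_
    rintro ((ν | ν) | a) h
    · have h5 : D.b.p j (D.w ν) ≠ 0 := by
        intro h0
        apply h
        change D.b.p j (if m.M ≤ ν.length then D.b.ev (t : ℂ) (D.w ν) else 0) = 0
        split_ifs
        · rw [p_ev, h0, smul_zero]
        · rw [map_zero]
      have h6 := hlen ν j h5
      change ν.length ≤ _
      refine le_max_of_le_left ?_
      omega
    · have h5 : D.b.p (-j) (D.w ν) ≠ 0 := by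
        intro h0
        apply h
        change D.b.p j (if m.M ≤ ν.length then star (D.w ν) else 0) = 0
        split_ifs
        · rw [p_star, h0, star_zero]
        · rw [map_zero]
      have h6 := hlen ν (-j) h5
      change ν.length ≤ _
      refine le_max_of_le_right ?_
      omega
    · change 0 ≤ _
      exact Nat.zero_le _
  have hstep := one_step D X0 m hm s t ht hfin z hz
  have key : ∀ (k : ℕ) (j : ℤ), m.Yj D t z j = (s : ℂ) ^ k • ∑ κ : Fin k → Fin n,
      sact D.b (star (D.w (List.ofFn κ))) (D.b.ev t (D.w (List.ofFn κ))) (m.Yj D t z) j := by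
    intro k
    induction k with
    | zero =>
      intro j
      rw [pow_zero, one_smul, Fintype.sum_unique]
      have e1 : D.w (List.ofFn (default : Fin 0 → Fin n)) = 1 := by
        simp [Sys.w, wd]
      rw [e1, star_one, hone, sact_one]
    | succ k ih =>
      intro j
      rw [ih j]
      have e1 : ∀ κ : Fin k → Fin n,
          sact D.b (star (D.w (List.ofFn κ))) (D.b.ev t (D.w (List.ofFn κ))) (m.Yj D t z) j =
          (s : ℂ) • ∑ x : Fin n, sact D.b (star (D.w (x :: List.ofFn κ)))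
            (D.b.ev t (D.w (x :: List.ofFn κ))) (m.Yj D t z) j := by
        intro κ
        have e2 : m.Yj D t z = fun i => (s : ℂ) • (fun i => ∑ x ∈ (Finset.univ : Finset (Fin n)),
            (1 : ℂ) • sact D.b (star (D.x x)) (D.b.ev t (D.x x)) (m.Yj D t z) i) i := by
          funext i
          simp only [one_smul]
          exact hstep i
        conv_lhs => rw [e2]
        rw [sact_smul, sact_sum]
        congr 1
        refine Finset.sum_congr rfl fun x _ => ?_
        rw [one_smul, wd_cons, star_mul, hmul _ _ _ htc, sact_mul]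
      rw [Finset.sum_congr rfl fun κ _ => e1 κ, ← Finset.smul_sum, smul_smul, ← pow_succ]
      congr 1
      rw [← (Fin.consEquiv (fun _ : Fin (k + 1) => Fin n)).sum_comp, Fintype.sum_prod_type,
        Finset.sum_comm]
      refine Finset.sum_congr rfl fun x _ => Finset.sum_congr rfl fun κ _ => ?_
      have e3 : List.ofFn ((Fin.consEquiv (fun _ : Fin (k + 1) => Fin n)) (x, κ)) =
          x :: List.ofFn κ := by
        rw [List.ofFn_succ]
        rfl
      rw [e3]
  intro k j
  rw [key k j]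
  congr 1
  refine Finset.sum_congr rfl fun κ _ => ?_
  rw [sact_finsum]

end Pool.Agent.Helper4.SI
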