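import Pool.Agent.Helper99.SI.StK

set_option autoImplicit false

/-!
# Project SI, module K8: basis of the space X
-/

namespace Pool.Agent.Helper4.SI

open Pool.Agent.Helper99.SI

/-- Extending an independent family by finitely many vectors of a space `X`. -/
lemma extend_fin {V : Type} [AddCommGroup V] [Module ℂ V] {ι : Type} (v : ι → V)
    (hv : LinearIndependent ℂ v) (X : Submodule ℂ V) (hvX : ∀ i, v i ∈ X)
    (Fs : Set V) (hF : Fs.Finite)
    (hX : X ≤ Submodule.span ℂ (Set.range v ∪ Fs)) :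
    ∃ (r : ℕ) (e : Fin r → V), LinearIndependent ℂ (Sum.elim v e) ∧
      Submodule.span ℂ (Set.range (Sum.elim v e)) = X := by
  set V0 : Submodule ℂ V := Submodule.span ℂ (Set.range v) with hV0
  set Q : Submodule ℂ (V ⧸ V0) := X.map V0.mkQ with hQ
  have hQle : Q ≤ Submodule.span ℂ (V0.mkQ '' Fs) := by
    rw [hQ, Submodule.map_le_iff_le_comap]
    refine hX.trans (Submodule.span_le.mpr ?_)
    rintro y (hy | hy)
    · have h0 : V0.mkQ y = 0 := by
        rw [Submodule.mkQ_apply, Submodule.Quotient.mk_eq_zero]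
        exact Submodule.subset_span hy
      change V0.mkQ y ∈ Submodule.span ℂ (V0.mkQ '' Fs)
      rw [h0]
      exact Submodule.zero_mem _
    · exact Submodule.subset_span ⟨y, hy, rfl⟩
  have : FiniteDimensional ℂ (Submodule.span ℂ (V0.mkQ '' Fs)) :=
    FiniteDimensional.span_of_finite ℂ (hF.image _)
  have : FiniteDimensional ℂ Q := Submodule.finiteDimensional_of_le hQle
  let bs := Module.finBasis ℂ Q
  have hex : ∀ i, ∃ x ∈ X, V0.mkQ x = (bs i : V ⧸ V0) := by
    intro i
    exact Submodule.mem_map.mp (bs i).2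
  choose e he1 he2 using hex
  refine ⟨_, e, ?_, ?_⟩
  · have hf : LinearIndependent ℂ (fun i => (⟨v i, Submodule.subset_span ⟨i, rfl⟩⟩ : V0)) := by
      apply LinearIndependent.of_comp V0.subtype
      exact hv
    have hg : LinearIndependent ℂ (Submodule.Quotient.mk (p := V0) ∘ e) := by
      have h1 : Submodule.Quotient.mk (p := V0) ∘ e = fun i => (bs i : V ⧸ V0) := by
        funext i
        exact he2 i
      rw [h1]
      exact bs.linearIndependent.map' Q.subtype (Submodule.ker_subtype Q)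
    exact LinearIndependent.sumElim_of_quotient hf e hg
  · apply le_antisymm
    · rw [Submodule.span_le]
      rintro y ⟨i | i, rfl⟩
      · exact hvX i
      · exact he1 i
    · intro x hx
      have hxQ : V0.mkQ x ∈ Q := Submodule.mem_map_of_mem hx
      have h1 := bs.sum_repr ⟨V0.mkQ x, hxQ⟩
      have h2 : ∑ i, bs.repr ⟨V0.mkQ x, hxQ⟩ i • V0.mkQ (e i) = V0.mkQ x := by
        have h3 := congrArg (Submodule.subtype Q) h1
        rw [map_sum] at h3
        simp only [map_smul, Submodule.subtype_apply] at h3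
        refine Eq.trans ?_ h3
        exact Finset.sum_congr rfl fun i _ => by rw [he2]
      have h4 : x - ∑ i, bs.repr ⟨V0.mkQ x, hxQ⟩ i • e i ∈ V0 := by
        rw [← Submodule.Quotient.mk_eq_zero V0, ← Submodule.mkQ_apply, map_sub, map_sum]
        simp only [map_smul]
        rw [h2, sub_self]
      have h5 : x = (x - ∑ i, bs.repr ⟨V0.mkQ x, hxQ⟩ i • e i) +
          ∑ i, bs.repr ⟨V0.mkQ x, hxQ⟩ i • e i := by abel
      rw [h5]
      refine Submodule.add_mem _ ?_ (Submodule.sum_mem _ fun i _ =>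
        Submodule.smul_mem _ _ (Submodule.subset_span ⟨Sum.inr i, rfl⟩))
      refine Submodule.span_mono ?_ h4
      rintro y ⟨i, rfl⟩
      exact ⟨Sum.inl i, rfl⟩

theorem hK8 (h1 : StA0) (h2 : StA3) (h3 : StC1) : StK8 := by
  intro n L _ _ _ _ _ D z hz
  obtain ⟨-, hmul, hone, hcomp, hev1, -, hpev, -⟩ := h1 L D.b
  obtain ⟨hli, -⟩ := h2 n L D
  obtain ⟨M, hM⟩ := D.G1 1
  have hzi : z⁻¹ ≠ 0 := inv_ne_zero hz
  obtain ⟨Fs, hFs⟩ := h3 n L D z⁻¹ hzi M
  have hinj : ∀ y, D.b.ev z⁻¹ (D.b.ev z y) = y := by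
    intro y
    rw [hcomp _ _ _ hzi hz, inv_mul_cancel₀ hz, hev1]
  have hinj2 : ∀ y, D.b.ev z (D.b.ev z⁻¹ y) = y := by
    intro y
    rw [hcomp _ _ _ hz hzi, mul_inv_cancel₀ hz, hev1]
  set X : Submodule ℂ L := Submodule.span ℂ
    (Set.range fun c : W n × W n => D.b.ev z (star (D.w c.1)) * D.w c.2) with hX
  have hw1 : D.w [] = 1 := by
    simp [Sys.w, wd]
  let v1 : {ν : W n // M ≤ ν.length} → L := fun ν => D.w ν.1
  let v2 : {ν : W n // M ≤ ν.length} → L := fun ν => D.b.ev z (star (D.w ν.1))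
  have hv1X : ∀ i, v1 i ∈ X := by
    intro i
    refine Submodule.subset_span ⟨([], i.1), ?_⟩
    change D.b.ev z (star (D.w [])) * D.w i.1 = D.w i.1
    rw [hw1, star_one, hone, one_mul]
  have hv2X : ∀ i, v2 i ∈ X := by
    intro i
    refine Submodule.subset_span ⟨(i.1, []), ?_⟩
    change D.b.ev z (star (D.w i.1)) * D.w [] = D.b.ev z (star (D.w i.1))
    rw [hw1, mul_one]
  have hl1 : LinearIndependent ℂ v1 := hli.comp _ Subtype.val_injective
  have hl2 : LinearIndependent ℂ v2 := by
    rw [linearIndependent_iff']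
    intro s g hg i hi
    have e1 : ∑ j ∈ s, star (g j) • v1 j = 0 := by
      have e2 : D.b.ev z (∑ j ∈ s, g j • star (v1 j)) = 0 := by
        rw [map_sum, ← hg]
        refine Finset.sum_congr rfl fun j _ => ?_
        rw [map_smul]
      have e3 : ∑ j ∈ s, g j • star (v1 j) = 0 := by
        rw [← hinj (∑ j ∈ s, g j • star (v1 j)), e2, map_zero]
      have e4 := congrArg star e3
      rw [star_sum, star_zero] at e4
      simpa only [star_smul, star_star] using e4
    have e5 := linearIndependent_iff'.mp hl1 s (fun j => star (g j)) e1 i hi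
    exact star_eq_zero.mp e5
  have hd : Disjoint (Submodule.span ℂ (Set.range v1)) (Submodule.span ℂ (Set.range v2)) := by
    rw [Submodule.disjoint_def]
    intro y hy1 hy2
    have hk : ∀ i : ℤ, D.b.p i y = 0 := by
      intro i
      rcases lt_or_ge i 1 with hi | hi
      · have hle : Submodule.span ℂ (Set.range v1) ≤ LinearMap.ker (D.b.p i) := by
          rw [Submodule.span_le]
          rintro _ ⟨ν, rfl⟩
          exact hM ν.1 ν.2 i hi
        exact hle hy1
      · have hle : Submodule.span ℂ (Set.range v2) ≤ LinearMap.ker (D.b.p i) := by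
          rw [Submodule.span_le]
          rintro _ ⟨ν, rfl⟩
          change D.b.p i (D.b.ev z (star (D.w ν.1))) = 0
          rw [hpev]
          have e1 := D.b.st (-i) (D.w ν.1)
          rw [neg_neg] at e1
          rw [e1]
          have e2 : D.b.p (-i) (D.w ν.1) = 0 := hM ν.1 ν.2 (-i) (by omega)
          rw [e2, star_zero, smul_zero]
        exact hle hy2
    rw [← D.b.sum y]
    exact (finsum_congr hk).trans finsum_zero
  have hv : LinearIndependent ℂ (Sum.elim v1 v2) := LinearIndependent.sum_type hl1 hl2 hd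
  have hXle : X ≤ Submodule.span ℂ (Set.range (Sum.elim v1 v2) ∪ (D.b.ev z '' (Fs : Set L))) := by
    rw [hX, Submodule.span_le]
    rintro _ ⟨⟨γ, q⟩, rfl⟩
    have e1 := Submodule.mem_map_of_mem (f := D.b.ev z) (hFs γ q)
    rw [hmul _ _ _ hz, hinj2, Submodule.map_span] at e1
    refine Submodule.span_mono ?_ e1
    rintro _ ⟨y, (⟨ν, hν, rfl⟩ | ⟨ν, hν, rfl⟩) | hy, rfl⟩
    · left
      refine ⟨Sum.inl ⟨ν, hν⟩, ?_⟩
      change D.w ν = D.b.ev z (D.b.ev z⁻¹ (D.w ν))
      rw [hinj2]
    · left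
      exact ⟨Sum.inr ⟨ν, hν⟩, rfl⟩
    · right
      exact ⟨y, hy, rfl⟩
  obtain ⟨r, e, he1, he2⟩ := extend_fin (Sum.elim v1 v2) hv X
    (by rintro (i | i); exacts [hv1X i, hv2X i]) _ (Fs.finite_toSet.image _) hXle
  exact ⟨M, r, e, he1, he2⟩

end Pool.Agent.Helper4.SI
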